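import Mathlib

/-!
Slow walks: the pair `(8,9)` in `T = {(2,3), (8,9)}` has `γ = 9 = Γ_T ^ 2`, and it is
slowest for infinitely many `n`. This disproves the proposed characterisation.
-/

namespace Pool.Agent.Results.MP_c389b3_nt.BoundaryPair

/-- The walk with the index shifted by one: `walk α β a b k = w_{k+1}(a,b)`. -/
def walk (α β a b : ℕ) : ℕ → ℕ
  | 0 => a
  | 1 => b
  | (k + 2) => α * walk α β a b (k + 1) + β * walk α β a b k

/-- The set of indices `k ≥ 1` at which some `(α,β)`-walk with positive starting values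
reaches `n`. -/
def indices (p : ℕ × ℕ) (n : ℕ) : Set ℕ :=
  {k | 1 ≤ k ∧ ∃ a₁ a₂ : ℕ, 1 ≤ a₁ ∧ 1 ≤ a₂ ∧ walk p.1 p.2 a₁ a₂ (k - 1) = n}

/-- `s^{α,β}(n)`, the largest element of `indices (α,β) n`. -/
noncomputable def s (p : ℕ × ℕ) (n : ℕ) : ℕ := sSup (indices p n)

/-- `γ_{α,β}`. -/
noncomputable def gamma (p : ℕ × ℕ) : ℝ :=
  ((p.1 : ℝ) + Real.sqrt ((p.1 : ℝ) ^ 2 + 4 * (p.2 : ℝ))) / 2

/-- `s_T(n) = max_{p ∈ T} s^p(n)`. -/
noncomputable def sT (T : Set (ℕ × ℕ)) (n : ℕ) : ℕ := sSup ((fun p => s p n) '' T)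

/-- `S_T(n)`, the pairs of `T` attaining the maximum. -/
def ST (T : Set (ℕ × ℕ)) (n : ℕ) : Set (ℕ × ℕ) := {p | p ∈ T ∧ s p n = sT T n}

/-- `Γ_T = min_{p ∈ T} γ_p`. -/
noncomputable def GammaT (T : Set (ℕ × ℕ)) : ℝ := sInf (gamma '' T)

/-- `R_T' = {p ∈ T : γ_p < Γ_T ^ 2}`. -/
def RT (T : Set (ℕ × ℕ)) : Set (ℕ × ℕ) := {p | p ∈ T ∧ gamma p < GammaT T ^ 2}

lemma le_walk {α β a b : ℕ} (hα : 1 ≤ α) (hβ : 1 ≤ β) (ha : 1 ≤ a) (hb : 1 ≤ b) (k : ℕ) :
    max 1 k ≤ walk α β a b k ∧ k + 1 ≤ walk α β a b (k + 1) := by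
  induction k with
  | zero => simp [walk, ha, hb]
  | succ k ih =>
    refine ⟨?_, ?_⟩
    · have := ih.2
      omega
    · have h1 := ih.1
      have h2 := ih.2
      have e : walk α β a b (k + 1 + 1) = α * walk α β a b (k + 1) + β * walk α β a b k := rfl
      rw [e]
      have h3 : walk α β a b (k + 1) ≤ α * walk α β a b (k + 1) := Nat.le_mul_of_pos_left _ hα
      have h4 : walk α β a b k ≤ β * walk α β a b k := Nat.le_mul_of_pos_left _ hβ
      omega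

lemma bddAbove_indices {p : ℕ × ℕ} (h1 : 1 ≤ p.1) (h2 : 1 ≤ p.2) (n : ℕ) :
    BddAbove (indices p n) := by
  refine ⟨n + 1, ?_⟩
  rintro k ⟨hk, a, b, ha, hb, rfl⟩
  have := (le_walk h1 h2 ha hb (k - 1)).1
  omega

/-- The set of indices is non-empty for `n ≥ 1` (so that `s` is a genuine maximum). -/
lemma indices_nonempty (p : ℕ × ℕ) {n : ℕ} (hn : 1 ≤ n) : (indices p n).Nonempty :=
  ⟨1, le_rfl, n, 1, hn, le_rfl, rfl⟩

lemma walk89 (j : ℕ) : 5 * (walk 8 9 1 1 (2 * j) : ℤ) = 81 ^ j + 4 ∧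
    5 * (walk 8 9 1 1 (2 * j + 1) : ℤ) = 9 * 81 ^ j - 4 := by
  induction j with
  | zero => norm_num [walk]
  | succ j ih =>
    have e1 : walk 8 9 1 1 (2 * (j + 1)) = 8 * walk 8 9 1 1 (2 * j + 1) + 9 * walk 8 9 1 1 (2 * j) := rfl
    have e2 : walk 8 9 1 1 (2 * (j + 1) + 1) =
      8 * walk 8 9 1 1 (2 * (j + 1)) + 9 * walk 8 9 1 1 (2 * j + 1) := rfl
    have h1 : 5 * (walk 8 9 1 1 (2 * (j + 1)) : ℤ) = 81 ^ (j + 1) + 4 := by
      rw [e1]; push_cast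
      rw [pow_succ]
      linarith [ih.1, ih.2]
    refine ⟨h1, ?_⟩
    rw [e2]; push_cast
    have := ih.2
    rw [pow_succ] at h1 ⊢
    linarith

lemma walk23 (a b k : ℕ) : 4 * (walk 2 3 a b k : ℤ) =
      ((a : ℤ) + b) * 3 ^ k + (3 * a - b) * (-1) ^ k ∧
    4 * (walk 2 3 a b (k + 1) : ℤ) =
      ((a : ℤ) + b) * 3 ^ (k + 1) + (3 * a - b) * (-1) ^ (k + 1) := by
  induction k with
  | zero => constructor <;> simp [walk] <;> ring
  | succ k ih =>
    refine ⟨ih.2, ?_⟩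
    have e : walk 2 3 a b (k + 1 + 1) = 2 * walk 2 3 a b (k + 1) + 3 * walk 2 3 a b k := rfl
    rw [e]; push_cast
    have h1 := ih.1
    have h2 := ih.2
    rw [pow_succ (3 : ℤ) k, pow_succ (-1 : ℤ) k] at h2
    rw [pow_succ (3 : ℤ) (k + 1), pow_succ (-1 : ℤ) (k + 1), pow_succ (3 : ℤ) k,
      pow_succ (-1 : ℤ) k]
    linarith

lemma pow_mod5 (i : ℕ) : (3 : ℤ) ^ (2 * i + 1) % 5 = 3 ∨ (3 : ℤ) ^ (2 * i + 1) % 5 = 2 := by
  induction i with
  | zero => left; norm_num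
  | succ i ih =>
    have e : (3 : ℤ) ^ (2 * (i + 1) + 1) = 9 * 3 ^ (2 * i + 1) := by ring
    rw [e]
    rcases ih with h | h <;> omega

/-- The value `n_j = (81^j + 4) / 5 = w_{2j+1}^{8,9}(1,1)`. -/
def nn (j : ℕ) : ℕ := walk 8 9 1 1 (2 * j)

/-- No `(2,3)`-walk reaches `n_j` at an index larger than `2j+1`. -/
lemma no_late (j : ℕ) (hj : 1 ≤ j) (a b k : ℕ) (ha : 1 ≤ a) (hb : 1 ≤ b) (hk : 2 * j + 1 ≤ k) :
    walk 2 3 a b k ≠ nn j := by
  intro h
  have h1 := (walk23 a b k).1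
  have h2 := (walk89 j).1
  rw [h] at h1
  change 5 * (nn j : ℤ) = _ at h2
  set Z : ℤ := 3 ^ (2 * j) with hZ
  have hZ2 : (81 : ℤ) ^ j = Z ^ 2 := by
    rw [hZ, ← pow_mul, mul_comm (2 * j) 2, ← mul_assoc, pow_mul]; norm_num
  have hZ9 : 9 ≤ Z := by
    have : (3 : ℤ) ^ 2 ≤ 3 ^ (2 * j) := pow_le_pow_right₀ (by norm_num) (by omega)
    linarith
  rw [hZ2] at h2
  have ha' : (1 : ℤ) ≤ a := by exact_mod_cast ha
  have hb' : (1 : ℤ) ≤ b := by exact_mod_cast hb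
  obtain ⟨m, hm⟩ : ∃ m : ℤ, m = a + b := ⟨_, rfl⟩
  rcases Nat.lt_or_ge (2 * j + 1) k with hk2 | hk2
  · -- k ≥ 2j+2
    obtain ⟨d, hd⟩ : ∃ d : ℤ, d = (3 * a - b) * (-1) ^ k := ⟨_, rfl⟩
    have hdabs : |d| ≤ 3 * m - 4 := by
      rw [hd, abs_mul, abs_pow, abs_neg, abs_one, one_pow, mul_one, abs_le]
      constructor <;> linarith
    rw [← hd, ← hm] at h1
    obtain ⟨R, hR⟩ : ∃ R : ℤ, R = 3 ^ k := ⟨_, rfl⟩
    rw [← hR] at h1
    have hmain : 5 * m * R = 4 * Z ^ 2 + 16 - 5 * d := by linarith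
    have hd1 := (abs_le.mp hdabs).1
    have hd2 := (abs_le.mp hdabs).2
    have hm2 : 2 ≤ m := by linarith
    rcases Nat.lt_or_ge (4 * j) k with hk4 | hk4
    · -- k > 4j
      have hR3 : 3 * Z ^ 2 ≤ R := by
        have : (3 : ℤ) ^ (4 * j + 1) ≤ 3 ^ k := pow_le_pow_right₀ (by norm_num) (by omega)
        have e : (3 : ℤ) ^ (4 * j + 1) = 3 * Z ^ 2 := by rw [hZ]; ring
        rw [hR]; linarith
      have hZ81 : 81 ≤ Z ^ 2 := by nlinarith
      have h4 : 5 * m * (R - 3) ≤ 4 * Z ^ 2 - 4 := by linarith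
      have h6 : 2 * (R - 3) ≤ m * (R - 3) := mul_le_mul_of_nonneg_right hm2 (by linarith)
      linarith
    · have hR9 : 9 * Z ≤ R := by
        have : (3 : ℤ) ^ (2 * j + 2) ≤ 3 ^ k := pow_le_pow_right₀ (by norm_num) (by omega)
        have e : (3 : ℤ) ^ (2 * j + 2) = 9 * Z := by rw [hZ]; ring
        rw [hR]; linarith
      have hdvd : R ∣ 5 * d - 16 := by
        have e : (5 * d - 16) = R * (4 * 3 ^ (4 * j - k) - 5 * m) := by
          have : Z ^ 2 = R * 3 ^ (4 * j - k) := by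
            rw [hZ, hR, ← pow_mul, ← pow_add]; congr 1; omega
          linarith
        exact Dvd.intro _ e.symm
      have hne : 5 * d - 16 ≠ 0 := by omega
      have hle : R ≤ |5 * d - 16| := Int.le_of_dvd (abs_pos.mpr hne) ((dvd_abs _ _).mpr hdvd)
      have hle2 : |5 * d - 16| ≤ 15 * m - 4 := by
        rw [abs_le]; constructor <;> linarith
      have h3 : R ≤ 15 * m - 4 := hle.trans hle2
      have h4 : 5 * m * (R - 3) ≤ 4 * Z ^ 2 := by nlinarith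
      have hR3 : 0 ≤ R - 3 := by linarith
      have h5 : R * (R - 3) ≤ 12 * Z ^ 2 := by nlinarith
      nlinarith
  · -- k = 2j+1
    have hk3 : k = 2 * j + 1 := by omega
    have hneg : (-1 : ℤ) ^ k = -1 := by
      rw [hk3]; exact Odd.neg_one_pow ⟨j, rfl⟩
    obtain ⟨i, rfl⟩ : ∃ i, j = i + 1 := ⟨j - 1, by omega⟩
    obtain ⟨P, hP⟩ : ∃ P : ℤ, P = 3 ^ (2 * i + 1) := ⟨_, rfl⟩
    have hZP : Z = 3 * P := by rw [hZ, hP]; ring
    have hRP : (3 : ℤ) ^ k = 9 * P := by rw [hk3, hP]; ring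
    have hP3 : 3 ≤ P := by linarith
    rw [hneg, hRP] at h1
    rw [hZP] at h2
    -- 4 n = (a+b) 9 P - (3a - b)
    obtain ⟨X, hX⟩ : ∃ X : ℤ, X = 4 * P - 5 * (a + b) := ⟨_, rfl⟩
    have h5 : 5 * ((b : ℤ) - 3 * a) = 16 + 9 * P * X := by
      linear_combination 4 * h2 - 5 * h1 - 9 * P * hX
    have hXneg : X ≤ 0 := by
      by_contra hcon
      push Not at hcon
      have h20 : 20 * (a : ℤ) = 4 * P - X - 16 - 9 * P * X := by linarith
      have hPX := mul_nonneg (show 0 ≤ 9 * P by linarith) (show 0 ≤ X - 1 by linarith)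
      linarith
    have hX0 : X ≠ 0 := by
      intro h0
      rw [h0] at h5
      omega
    have hX1 : X = -1 := by
      by_contra hcon
      have hX2 : X ≤ -2 := by omega
      have h20 : 20 * (b : ℤ) = 12 * P - 3 * X + 16 + 9 * P * X := by linarith
      have hPX := mul_nonneg (show 0 ≤ 9 * P - 3 by linarith) (show 0 ≤ -2 - X by linarith)
      linarith
    have h6 : 5 * ((a : ℤ) + b) = 4 * P + 1 := by linarith
    rcases pow_mod5 i with h7 | h7 <;> rw [← hP] at h7 <;> omega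

lemma s89_ge (j : ℕ) : 2 * j + 1 ≤ s (8, 9) (nn j) :=
  le_csSup (bddAbove_indices (by norm_num) (by norm_num) _)
    ⟨by omega, 1, 1, le_rfl, le_rfl, rfl⟩

lemma s23_le (j : ℕ) (hj : 1 ≤ j) : s (2, 3) (nn j) ≤ 2 * j + 1 := by
  refine csSup_le' ?_
  rintro k ⟨hk, a, b, ha, hb, h⟩
  by_contra hcon
  push Not at hcon
  exact no_late j hj a b (k - 1) ha hb (by omega) h

lemma nn_injective : Function.Injective nn := by
  intro i j h
  have h1 := (walk89 i).1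
  have h2 := (walk89 j).1
  have h3 : (walk 8 9 1 1 (2 * i) : ℤ) = walk 8 9 1 1 (2 * j) := by exact_mod_cast h
  have h4 : (81 : ℤ) ^ i = 81 ^ j := by linarith
  exact Int.pow_right_injective (by norm_num : 1 < Int.natAbs 81) h4

lemma nn_pos (j : ℕ) : 1 ≤ nn j := by
  have := (le_walk (α := 8) (β := 9) (by norm_num) (by norm_num) (le_refl 1) (le_refl 1) (2 * j)).1
  exact le_trans (le_max_left _ _) this

lemma gamma23 : gamma (2, 3) = 3 := by
  unfold gamma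
  have : Real.sqrt (((2 : ℕ) : ℝ) ^ 2 + 4 * ((3 : ℕ) : ℝ)) = 4 := by
    rw [Real.sqrt_eq_iff_mul_self_eq (by positivity) (by norm_num)]; norm_num
  simp only [this]; norm_num

lemma gamma89 : gamma (8, 9) = 9 := by
  unfold gamma
  have : Real.sqrt (((8 : ℕ) : ℝ) ^ 2 + 4 * ((9 : ℕ) : ℝ)) = 10 := by
    rw [Real.sqrt_eq_iff_mul_self_eq (by positivity) (by norm_num)]; norm_num
  simp only [this]; norm_num

/-- **Disproof.** For `T = {(2,3), (8,9)}` the pair `(8,9)` has `γ = 9 = Γ_T ^ 2`, so it is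
not in `R_T'`, but it lies in `S_T(n)` for infinitely many `n`. -/
theorem result : ∃ T : Set (ℕ × ℕ), T.Nonempty ∧
    (∀ p ∈ T, 1 ≤ p.1 ∧ 1 ≤ p.2 ∧ Nat.Coprime p.1 p.2) ∧
    ∃ p ∈ T, gamma p = GammaT T ^ 2 ∧ p ∉ RT T ∧ {n : ℕ | 1 ≤ n ∧ p ∈ ST T n}.Infinite := by
  have hG : GammaT {(2, 3), (8, 9)} = 3 := by
    unfold GammaT
    rw [Set.image_pair, gamma23, gamma89, csInf_pair]
    norm_num
  refine ⟨{(2, 3), (8, 9)}, ⟨(2, 3), by simp⟩, ?_, (8, 9), by simp, ?_, ?_, ?_⟩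
  · intro p hp
    simp only [Set.mem_insert_iff, Set.mem_singleton_iff] at hp
    rcases hp with rfl | rfl <;> refine ⟨by norm_num, by norm_num, by norm_num⟩
  · rw [hG, gamma89]; norm_num
  · intro h
    have := h.2
    rw [hG, gamma89] at this
    norm_num at this
  · refine Set.Infinite.mono ?_ (Set.infinite_range_of_injective
      (nn_injective.comp (add_left_injective 1)))
    rintro n ⟨j, rfl⟩
    refine ⟨nn_pos _, by simp, ?_⟩
    unfold sT
    rw [Set.image_pair, csSup_pair]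
    have h1 := s23_le (j + 1) (by omega)
    have h2 := s89_ge (j + 1)
    simp only [Function.comp]
    exact (max_eq_right (h1.trans h2)).symm

end Pool.Agent.Results.MP_c389b3_nt.BoundaryPair
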